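import Pool.Agent.Y195.LM.Stm

set_option autoImplicit false

/-!
# A positive trigonometric weight for which two given functions have mean zero
-/

open MeasureTheory Set Filter Topology
open scoped Real

namespace Pool.Agent.Y155.LM

/-- mass of the peak function -/
noncomputable def kap (N : ℕ) : ℝ := ∫ θ in (0 : ℝ)..(2 * π), ((1 + Real.cos θ) / 2) ^ N

/-- the normalised peak function at `x` -/
noncomputable def bb (N : ℕ) (x θ : ℝ) : ℝ := ((1 + Real.cos (θ - x)) / 2) ^ N / kap N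

theorem half_nonneg (u : ℝ) : 0 ≤ (1 + Real.cos u) / 2 := by
  have := Real.neg_one_le_cos u
  linarith

theorem kap_ge {q : ℝ} (h0 : 0 ≤ q) (h1 : q < 1) : ∃ δ : ℝ, 0 < δ ∧ ∀ N, δ * q ^ N ≤ kap N := by
  have hc : ContinuousAt (fun θ : ℝ => (1 + Real.cos θ) / 2) 0 := by
    exact Continuous.continuousAt (by fun_prop)
  have h2 : ∀ᶠ θ in 𝓝 (0 : ℝ), q < (1 + Real.cos θ) / 2 :=
    hc.eventually (lt_mem_nhds (by simpa using h1))
  obtain ⟨δ0, hδ0, h3⟩ := Metric.eventually_nhds_iff.1 h2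
  have hpi := Real.pi_gt_three
  refine ⟨min (δ0 / 2) 1, by positivity, fun N => ?_⟩
  set δ : ℝ := min (δ0 / 2) 1 with hδ
  have hδp : 0 < δ := by positivity
  have hδ1 : δ ≤ 1 := min_le_right _ _
  have hδ2 : δ ≤ δ0 / 2 := min_le_left _ _
  have hcont : Continuous (fun θ : ℝ => ((1 + Real.cos θ) / 2) ^ N) := by fun_prop
  have hi : ∀ a b : ℝ, IntervalIntegrable (fun θ : ℝ => ((1 + Real.cos θ) / 2) ^ N) volume a b :=
    fun a b => hcont.intervalIntegrable a b
  unfold kap
  rw [← intervalIntegral.integral_add_adjacent_intervals (hi 0 δ) (hi δ (2 * π))]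
  have e1 : δ * q ^ N ≤ ∫ θ in (0 : ℝ)..δ, ((1 + Real.cos θ) / 2) ^ N := by
    calc δ * q ^ N = ∫ _θ in (0 : ℝ)..δ, q ^ N := by simp
      _ ≤ _ := by
        refine intervalIntegral.integral_mono_on hδp.le (by simp) (hi _ _) fun θ hθ => ?_
        refine pow_le_pow_left₀ h0 (h3 ?_).le N
        rw [Real.dist_eq, sub_zero, abs_of_nonneg hθ.1]
        linarith [hθ.2]
  have e2 : 0 ≤ ∫ θ in δ..(2 * π), ((1 + Real.cos θ) / 2) ^ N :=
    intervalIntegral.integral_nonneg (by linarith) fun θ _ => pow_nonneg (half_nonneg θ) N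
  linarith

theorem kap_pos (N : ℕ) : 0 < kap N := by
  obtain ⟨δ, hδ, h⟩ := kap_ge (q := 1 / 2) (by norm_num) (by norm_num)
  exact lt_of_lt_of_le (by positivity) (h N)

theorem kap_tendsto {r : ℝ} (h0 : 0 ≤ r) (h1 : r < 1) :
    Tendsto (fun N => r ^ N / kap N) atTop (𝓝 0) := by
  obtain ⟨δ, hδ, h⟩ := kap_ge (q := (1 + r) / 2) (by linarith) (by linarith)
  have hq : 0 < (1 + r) / 2 := by linarith
  have h2 : Tendsto (fun N : ℕ => (r / ((1 + r) / 2)) ^ N / δ) atTop (𝓝 (0 / δ)) := by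
    refine (tendsto_pow_atTop_nhds_zero_of_lt_one (by positivity) ?_).div_const δ
    rw [div_lt_one hq]
    linarith
  rw [zero_div] at h2
  refine squeeze_zero (fun N => div_nonneg (pow_nonneg h0 N) (kap_pos N).le) (fun N => ?_) h2
  rw [div_pow, div_div]
  have h3 := h N
  have h4 : 0 < ((1 + r) / 2) ^ N * δ := by positivity
  exact div_le_div_of_nonneg_left (pow_nonneg h0 N) h4 (by linarith)

theorem bb_nonneg (N : ℕ) (x θ : ℝ) : 0 ≤ bb N x θ :=
  div_nonneg (pow_nonneg (half_nonneg _) N) (kap_pos N).le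

theorem bb_cont (N : ℕ) (x : ℝ) : Continuous (bb N x) := by
  unfold bb
  fun_prop

theorem bb_le {N : ℕ} {x θ r : ℝ} (h : (1 + Real.cos (θ - x)) / 2 ≤ r) :
    bb N x θ ≤ r ^ N / kap N :=
  div_le_div_of_nonneg_right (pow_le_pow_left₀ (half_nonneg _) h N) (kap_pos N).le

theorem bb_int (N : ℕ) (x : ℝ) : ∫ θ in (0 : ℝ)..(2 * π), bb N x θ = 1 := by
  unfold bb
  rw [intervalIntegral.integral_div,
    intervalIntegral.integral_comp_sub_right (fun u => ((1 + Real.cos u) / 2) ^ N) x]
  have hp : Function.Periodic (fun u : ℝ => ((1 + Real.cos u) / 2) ^ N) (2 * π) := by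
    intro u
    simp only [Real.cos_add_two_pi]
  have := hp.intervalIntegral_add_eq (0 - x) 0
  rw [zero_add, show 0 - x + 2 * π = 2 * π - x by ring] at this
  rw [this]
  exact div_self (kap_pos N).ne'

theorem near {g : ℝ → ℝ} (hg : Continuous g) (hp : ∀ θ, g (θ + 2 * π) = g θ) (x : ℝ) {ε : ℝ}
    (hε : 0 < ε) : ∃ δ : ℝ, 0 < δ ∧ ∀ θ, 1 - δ < Real.cos (θ - x) → |g θ - g x| < ε := by
  have hpi := Real.pi_pos
  obtain ⟨δ0, hδ0, h⟩ := Metric.continuousAt_iff.1 (hg.continuousAt (x := x)) ε hε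
  have hδ1 : 0 < min δ0 π := lt_min hδ0 hpi
  refine ⟨1 - Real.cos (min δ0 π), ?_, fun θ hθ => ?_⟩
  · have := Real.cos_lt_cos_of_nonneg_of_le_pi le_rfl (min_le_right δ0 π) hδ1
    rw [Real.cos_zero] at this
    linarith
  · rw [sub_sub_cancel] at hθ
    obtain ⟨n, hn, -⟩ := existsUnique_sub_zsmul_mem_Ico (a := 2 * π) (by positivity) θ (x - π)
    have hgp : Function.Periodic g (2 * π) := hp
    have e1 : g (θ - n • (2 * π)) = g θ := hgp.sub_zsmul_eq n
    have e2 : Real.cos (θ - n • (2 * π) - x) = Real.cos (θ - x) := by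
      rw [show θ - n • (2 * π) - x = θ - x - n • (2 * π) by ring]
      exact Real.cos_periodic.sub_zsmul_eq n
    rw [← e1]
    rw [← e2] at hθ
    generalize θ - n • (2 * π) = θ' at *
    have e3 : |θ' - x| ≤ π := by
      rw [abs_le]
      have h1 := hn.1
      have h2 := hn.2
      constructor <;> linarith
    have e4 : |θ' - x| < min δ0 π := by
      by_contra hcon
      rw [not_lt] at hcon
      have := Real.cos_le_cos_of_nonneg_of_le_pi hδ1.le e3 hcon
      rw [Real.cos_abs] at this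
      linarith
    have := h (x := θ') (by rw [Real.dist_eq]; exact e4.trans_le (min_le_left _ _))
    rwa [Real.dist_eq] at this

theorem peak {g : ℝ → ℝ} (hg : Continuous g) (hp : ∀ θ, g (θ + 2 * π) = g θ) {x y₁ y₂ : ℝ}
    (h1 : Real.cos (x - y₁) < 1) (h2 : Real.cos (x - y₂) < 1) {R ε : ℝ} (hR : 0 ≤ R)
    (hε : 0 < ε) : ∀ᶠ N in atTop, ∀ u₁ u₂ : ℝ, 0 ≤ u₁ → u₁ ≤ R → 0 ≤ u₂ → u₂ ≤ R →
      |(∫ θ in (0 : ℝ)..(2 * π), g θ * bb N x θ / (1 + u₁ * bb N y₁ θ + u₂ * bb N y₂ θ)) - g x|
        ≤ ε := by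
  have hpi := Real.pi_pos
  -- bound of g
  obtain ⟨M0, hM0⟩ := isCompact_Icc.exists_bound_of_continuousOn (s := Icc (0 : ℝ) (2 * π))
    hg.continuousOn
  set M : ℝ := max M0 |g x| with hM
  have hMg : ∀ θ ∈ Icc (0 : ℝ) (2 * π), |g θ| ≤ M := fun θ hθ =>
    (hM0 θ hθ).trans (le_max_left _ _)
  have hMx : |g x| ≤ M := le_max_right _ _
  have hM1 : 0 ≤ M := (abs_nonneg _).trans hMx
  -- the neighbourhood of x
  obtain ⟨δ₀, hδ₀, n₀⟩ := near hg hp x (ε := ε / 4) (by positivity)
  have hcp : ∀ y θ : ℝ, Real.cos (θ + 2 * π - y) = Real.cos (θ - y) := fun y θ => by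
    rw [show θ + 2 * π - y = θ - y + 2 * π by ring, Real.cos_add_two_pi]
  obtain ⟨δ₁, hδ₁, n₁⟩ := near (g := fun θ => Real.cos (θ - y₁)) (by fun_prop) (hcp y₁) x
    (ε := (1 - Real.cos (x - y₁)) / 2) (by linarith)
  obtain ⟨δ₂, hδ₂, n₂⟩ := near (g := fun θ => Real.cos (θ - y₂)) (by fun_prop) (hcp y₂) x
    (ε := (1 - Real.cos (x - y₂)) / 2) (by linarith)
  set δ : ℝ := min δ₀ (min δ₁ δ₂) with hδ
  have hδp : 0 < δ := lt_min hδ₀ (lt_min hδ₁ hδ₂)
  have hd0 : δ ≤ δ₀ := min_le_left _ _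
  have hd1 : δ ≤ δ₁ := (min_le_right _ _).trans (min_le_left _ _)
  have hd2 : δ ≤ δ₂ := (min_le_right _ _).trans (min_le_right _ _)
  have hc1 := Real.neg_one_le_cos (x - y₁)
  have hc2 := Real.neg_one_le_cos (x - y₂)
  set r : ℝ := max (1 - δ / 2) (max (1 - (1 - Real.cos (x - y₁)) / 4)
    (1 - (1 - Real.cos (x - y₂)) / 4)) with hr
  have hr1 : r < 1 := by
    refine max_lt (by linarith) (max_lt (by linarith) (by linarith))
  have hr0 : 0 ≤ r := by
    have : 1 - (1 - Real.cos (x - y₁)) / 4 ≤ r :=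
      (le_max_left _ _).trans (le_max_right _ _)
    linarith
  set η : ℝ := ε / (2 * (2 * R * M + 4 * π * M + 1)) with hη
  have hη0 : 0 < η := by positivity
  filter_upwards [(kap_tendsto hr0 hr1).eventually (gt_mem_nhds hη0)] with N hN
  intro u₁ u₂ hu1 hu1' hu2 hu2'
  have hden : ∀ θ, 1 ≤ 1 + u₁ * bb N y₁ θ + u₂ * bb N y₂ θ := fun θ => by
    have := mul_nonneg hu1 (bb_nonneg N y₁ θ)
    have := mul_nonneg hu2 (bb_nonneg N y₂ θ)
    linarith
  have hgb := bb_cont N x
  have hb1 := bb_cont N y₁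
  have hb2 := bb_cont N y₂
  have hc : Continuous fun θ => g θ * bb N x θ / (1 + u₁ * bb N y₁ θ + u₂ * bb N y₂ θ) :=
    Continuous.div (hg.mul hgb) (by fun_prop) fun θ => (by linarith [hden θ])
  have ic1 : IntervalIntegrable (fun θ => g θ * bb N x θ / (1 + u₁ * bb N y₁ θ + u₂ * bb N y₂ θ))
      volume 0 (2 * π) := hc.intervalIntegrable _ _
  have ic2 : IntervalIntegrable (fun θ => g x * bb N x θ) volume 0 (2 * π) :=
    (continuous_const.mul hgb).intervalIntegrable _ _
  have e0 : (∫ θ in (0 : ℝ)..(2 * π), g θ * bb N x θ /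
      (1 + u₁ * bb N y₁ θ + u₂ * bb N y₂ θ)) - g x =
      ∫ θ in (0 : ℝ)..(2 * π), (g θ * bb N x θ / (1 + u₁ * bb N y₁ θ + u₂ * bb N y₂ θ) -
        g x * bb N x θ) := by
    rw [intervalIntegral.integral_sub ic1 ic2, intervalIntegral.integral_const_mul,
      bb_int, mul_one]
  rw [e0]
  have hpt : ∀ θ ∈ Ioc (0 : ℝ) (2 * π),
      ‖g θ * bb N x θ / (1 + u₁ * bb N y₁ θ + u₂ * bb N y₂ θ) - g x * bb N x θ‖ ≤
        (ε / 4 + 2 * R * M * η) * bb N x θ + 2 * M * η := by
    intro θ hθ
    have hgM := hMg θ ⟨hθ.1.le, hθ.2⟩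
    have hbx := bb_nonneg N x θ
    have hD := hden θ
    have hD0 : 0 < 1 + u₁ * bb N y₁ θ + u₂ * bb N y₂ θ := by linarith
    rw [Real.norm_eq_abs, show g θ * bb N x θ / (1 + u₁ * bb N y₁ θ + u₂ * bb N y₂ θ) -
      g x * bb N x θ = (g θ / (1 + u₁ * bb N y₁ θ + u₂ * bb N y₂ θ) - g x) * bb N x θ by ring,
      abs_mul, abs_of_nonneg hbx]
    rcases lt_or_ge (1 - δ) (Real.cos (θ - x)) with hnear | haway
    · have k0 := n₀ θ (by linarith)
      have k1 := n₁ θ (by linarith)
      have k2 := n₂ θ (by linarith)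
      rw [abs_lt] at k1 k2
      have b1 : bb N y₁ θ ≤ η := by
        refine (bb_le (r := r) ?_).trans hN.le
        refine le_trans ?_ ((le_max_left _ _).trans (le_max_right _ _))
        linarith [k1.2]
      have b2 : bb N y₂ θ ≤ η := by
        refine (bb_le (r := r) ?_).trans hN.le
        refine le_trans ?_ ((le_max_right _ _).trans (le_max_right _ _))
        linarith [k2.2]
      have k3 : |g θ / (1 + u₁ * bb N y₁ θ + u₂ * bb N y₂ θ) - g x| ≤
          ε / 4 + 2 * R * M * η := by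
        have k4 : g θ / (1 + u₁ * bb N y₁ θ + u₂ * bb N y₂ θ) - g x = (g θ - g x) -
            g θ * ((u₁ * bb N y₁ θ + u₂ * bb N y₂ θ) /
              (1 + u₁ * bb N y₁ θ + u₂ * bb N y₂ θ)) := by
          field_simp
          ring
        have k5 : 0 ≤ u₁ * bb N y₁ θ + u₂ * bb N y₂ θ := by linarith
        have k6 : u₁ * bb N y₁ θ + u₂ * bb N y₂ θ ≤ 2 * R * η := by
          have := mul_le_mul hu1' b1 (bb_nonneg _ _ _) hR
          have := mul_le_mul hu2' b2 (bb_nonneg _ _ _) hR
          linarith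
        have k7 : (u₁ * bb N y₁ θ + u₂ * bb N y₂ θ) /
            (1 + u₁ * bb N y₁ θ + u₂ * bb N y₂ θ) ≤ 2 * R * η :=
          (div_le_self k5 hD).trans k6
        rw [k4]
        refine (abs_sub _ _).trans (add_le_add k0.le ?_)
        rw [abs_mul, abs_of_nonneg (div_nonneg k5 hD0.le)]
        calc |g θ| * ((u₁ * bb N y₁ θ + u₂ * bb N y₂ θ) /
              (1 + u₁ * bb N y₁ θ + u₂ * bb N y₂ θ)) ≤ M * (2 * R * η) := by
              refine mul_le_mul hgM k7 (div_nonneg k5 hD0.le) hM1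
          _ = 2 * R * M * η := by ring
      have := mul_le_mul_of_nonneg_right k3 hbx
      have : 0 ≤ 2 * M * η := by positivity
      linarith
    · have b0 : bb N x θ ≤ η := by
        refine (bb_le (r := r) ?_).trans hN.le
        refine le_trans ?_ (le_max_left _ _)
        linarith
      have k3 : |g θ / (1 + u₁ * bb N y₁ θ + u₂ * bb N y₂ θ) - g x| ≤ 2 * M := by
        refine (abs_sub _ _).trans ?_
        rw [abs_div, abs_of_pos hD0]
        have := div_le_self (abs_nonneg (g θ)) hD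
        linarith
      have k4 : |g θ / (1 + u₁ * bb N y₁ θ + u₂ * bb N y₂ θ) - g x| * bb N x θ ≤ 2 * M * η :=
        mul_le_mul k3 b0 hbx (by positivity)
      have k5 : 0 ≤ (ε / 4 + 2 * R * M * η) * bb N x θ := by positivity
      linarith
  have hint : IntervalIntegrable (fun θ => (ε / 4 + 2 * R * M * η) * bb N x θ + 2 * M * η)
      volume 0 (2 * π) := Continuous.intervalIntegrable (by fun_prop) _ _
  have h5 := intervalIntegral.norm_integral_le_of_norm_le (μ := volume)
    (by positivity : (0 : ℝ) ≤ 2 * π) (ae_of_all _ hpt) hint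
  rw [intervalIntegral.integral_add (Continuous.intervalIntegrable (by fun_prop) _ _)
    (by simp), intervalIntegral.integral_const_mul, bb_int, intervalIntegral.integral_const,
    sub_zero, smul_eq_mul, mul_one] at h5
  rw [← Real.norm_eq_abs]
  refine h5.trans ?_
  have h6 : η * (2 * (2 * R * M + 4 * π * M + 1)) = ε := by
    rw [hη]
    field_simp
  nlinarith

theorem cos_lt_one {u : ℝ} (h0 : u ≠ 0) (h1 : -(2 * π) < u) (h2 : u < 2 * π) :
    Real.cos u < 1 := by
  refine lt_of_le_of_ne (Real.cos_le_one u) fun h => h0 ?_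
  exact (Real.cos_eq_one_iff_of_lt_of_lt h1 h2).1 h

theorem t : Pool.Agent.Y195.LM.S_WT := by
  intro a c ha hc hpa hpc t₁ t₂ t₃ t₄ h12 h23 h34 h41 ha4 ha2 hc1 hc3
  have hpi := Real.pi_pos
  -- constants
  set A : ℝ := ∫ θ in (0 : ℝ)..(2 * π), |a θ| with hA
  set Cc : ℝ := ∫ θ in (0 : ℝ)..(2 * π), |c θ| with hCc
  have hA0 : 0 ≤ A := intervalIntegral.integral_nonneg (by positivity) fun _ _ => abs_nonneg _
  have hC0 : 0 ≤ Cc := intervalIntegral.integral_nonneg (by positivity) fun _ _ => abs_nonneg _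
  set m : ℝ := min (a t₄) (-a t₂) with hm
  have hm0 : 0 < m := lt_min ha4 (by linarith)
  set S : ℝ := 2 * A / m with hS
  have hS0 : 0 ≤ S := by positivity
  set T : ℝ := 2 * (Cc + 1) / c t₁ + 2 * (Cc + 1) / (-c t₃) with hT
  have hc3' : 0 < -c t₃ := by linarith
  have hT0 : 0 ≤ T := by positivity
  have hT1 : Cc < T * (c t₁ / 2) := by
    have e : 2 * (Cc + 1) / c t₁ * (c t₁ / 2) = Cc + 1 := by field_simp
    have e' : 0 ≤ 2 * (Cc + 1) / (-c t₃) * (c t₁ / 2) := by positivity
    rw [hT, add_mul]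
    linarith
  have hT3 : Cc < T * (-c t₃ / 2) := by
    have e : 2 * (Cc + 1) / (-c t₃) * (-c t₃ / 2) = Cc + 1 := by
      field_simp
      exact div_self hc3.ne
    have e' : 0 ≤ 2 * (Cc + 1) / c t₁ * (-c t₃ / 2) := by positivity
    rw [hT, add_mul]
    linarith
  obtain ⟨N, f1, f2, f3, f4⟩ :=
    ((peak ha hpa (x := t₄) (y₁ := t₁) (y₂ := t₃)
      (cos_lt_one (by intro h; linarith) (by linarith) (by linarith))
      (cos_lt_one (by intro h; linarith) (by linarith) (by linarith)) hT0 (ε := a t₄ / 2)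
      (by positivity)).and
    ((peak ha hpa (x := t₂) (y₁ := t₁) (y₂ := t₃)
      (cos_lt_one (by intro h; linarith) (by linarith) (by linarith))
      (cos_lt_one (by intro h; linarith) (by linarith) (by linarith)) hT0 (ε := -a t₂ / 2)
      (by linarith)).and
    ((peak hc hpc (x := t₁) (y₁ := t₄) (y₂ := t₂)
      (cos_lt_one (by intro h; linarith) (by linarith) (by linarith))
      (cos_lt_one (by intro h; linarith) (by linarith) (by linarith)) hS0 (ε := c t₁ / 2)
      (by positivity)).and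
    (peak hc hpc (x := t₃) (y₁ := t₄) (y₂ := t₂)
      (cos_lt_one (by intro h; linarith) (by linarith) (by linarith))
      (cos_lt_one (by intro h; linarith) (by linarith) (by linarith)) hS0 (ε := -c t₃ / 2)
      (by linarith))))).exists
  have g1 := bb_cont N t₁
  have g2 := bb_cont N t₂
  have g3 := bb_cont N t₃
  have g4 := bb_cont N t₄
  set den : ℝ → ℝ → ℝ := fun t θ => 1 + max t 0 * bb N t₁ θ + max (-t) 0 * bb N t₃ θ with hden
  have den1 : ∀ t θ, 1 ≤ den t θ := fun t θ => by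
    have h1 := mul_nonneg (le_max_right t 0) (bb_nonneg N t₁ θ)
    have h2 := mul_nonneg (le_max_right (-t) 0) (bb_nonneg N t₃ θ)
    simp only [hden]
    linarith
  have denc : Continuous (Function.uncurry den) := by
    simp only [hden, Function.uncurry_def]
    fun_prop
  have den0 : ∀ p : ℝ × ℝ, Function.uncurry den p ≠ 0 := fun p => by
    have := den1 p.1 p.2
    have e : Function.uncurry den p = den p.1 p.2 := rfl
    rw [e]
    linarith
  set D : ℝ → ℝ := fun t => ∫ θ in (0 : ℝ)..(2 * π), a θ / den t θ with hD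
  set α₁ : ℝ → ℝ := fun t => ∫ θ in (0 : ℝ)..(2 * π), a θ * bb N t₄ θ / den t θ with hα₁
  set α₂ : ℝ → ℝ := fun t => -∫ θ in (0 : ℝ)..(2 * π), a θ * bb N t₂ θ / den t θ with hα₂
  have Dc : Continuous D := by
    refine intervalIntegral.continuous_parametric_intervalIntegral_of_continuous' ?_ _ _
    exact Continuous.div (ha.comp continuous_snd) denc den0
  have α₁c : Continuous α₁ := by
    refine intervalIntegral.continuous_parametric_intervalIntegral_of_continuous' ?_ _ _
    exact Continuous.div ((ha.comp continuous_snd).mul (g4.comp continuous_snd)) denc den0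
  have α₂c' : Continuous fun t => ∫ θ in (0 : ℝ)..(2 * π), a θ * bb N t₂ θ / den t θ := by
    refine intervalIntegral.continuous_parametric_intervalIntegral_of_continuous' ?_ _ _
    exact Continuous.div ((ha.comp continuous_snd).mul (g2.comp continuous_snd)) denc den0
  have α₂c : Continuous α₂ := α₂c'.neg
  have hDA : ∀ t, |D t| ≤ A := by
    intro t
    have h1 : ∀ θ ∈ Ioc (0 : ℝ) (2 * π), ‖a θ / den t θ‖ ≤ |a θ| := fun θ _ => by
      rw [Real.norm_eq_abs, abs_div, abs_of_pos (show 0 < den t θ by linarith [den1 t θ])]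
      exact div_le_self (abs_nonneg _) (den1 t θ)
    have := intervalIntegral.norm_integral_le_of_norm_le (μ := volume)
      (by positivity : (0 : ℝ) ≤ 2 * π) (ae_of_all _ h1) (ha.abs.intervalIntegrable _ _)
    exact this
  have hm2 : 0 < m / 2 := by positivity
  set S₁ : ℝ → ℝ := fun t => max (-D t) 0 / max (α₁ t) (m / 2) with hS₁
  set S₂ : ℝ → ℝ := fun t => max (D t) 0 / max (α₂ t) (m / 2) with hS₂
  have S₁c : Continuous S₁ := Continuous.div (Dc.neg.max continuous_const)
    (α₁c.max continuous_const) fun t => (lt_of_lt_of_le hm2 (le_max_right _ _)).ne'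
  have S₂c : Continuous S₂ := Continuous.div (Dc.max continuous_const)
    (α₂c.max continuous_const) fun t => (lt_of_lt_of_le hm2 (le_max_right _ _)).ne'
  have S₁0 : ∀ t, 0 ≤ S₁ t := fun t => div_nonneg (le_max_right _ _)
    (hm2.le.trans (le_max_right _ _))
  have S₂0 : ∀ t, 0 ≤ S₂ t := fun t => div_nonneg (le_max_right _ _)
    (hm2.le.trans (le_max_right _ _))
  have hAS : A / (m / 2) = S := by rw [hS]; field_simp
  have S₁S : ∀ t, S₁ t ≤ S := fun t => by
    rw [← hAS]
    have h1 : max (-D t) 0 ≤ A := max_le ((neg_le_abs _).trans (hDA t)) hA0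
    have h2 : m / 2 ≤ max (α₁ t) (m / 2) := le_max_right _ _
    exact div_le_div₀ hA0 h1 hm2 h2
  have S₂S : ∀ t, S₂ t ≤ S := fun t => by
    rw [← hAS]
    have h1 : max (D t) 0 ≤ A := max_le ((le_abs_self _).trans (hDA t)) hA0
    have h2 : m / 2 ≤ max (α₂ t) (m / 2) := le_max_right _ _
    exact div_le_div₀ hA0 h1 hm2 h2
  set num : ℝ → ℝ → ℝ := fun t θ => 1 + S₁ t * bb N t₄ θ + S₂ t * bb N t₂ θ with hnum
  have num1 : ∀ t θ, 1 ≤ num t θ := fun t θ => by
    have h1 := mul_nonneg (S₁0 t) (bb_nonneg N t₄ θ)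
    have h2 := mul_nonneg (S₂0 t) (bb_nonneg N t₂ θ)
    simp only [hnum]
    linarith
  have numc : Continuous (Function.uncurry num) := by
    simp only [hnum, Function.uncurry_def]
    fun_prop
  have num0 : ∀ p : ℝ × ℝ, Function.uncurry num p ≠ 0 := fun p => by
    have := num1 p.1 p.2
    have e : Function.uncurry num p = num p.1 p.2 := rfl
    rw [e]
    linarith
  have numc' : ∀ t, Continuous (num t) := fun t => by
    simp only [hnum]
    fun_prop
  have denc' : ∀ t, Continuous (den t) := fun t => by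
    simp only [hden]
    fun_prop
  have numne : ∀ t θ, num t θ ≠ 0 := fun t θ => by have := num1 t θ; linarith
  have denne : ∀ t θ, den t θ ≠ 0 := fun t θ => by have := den1 t θ; linarith
  set G : ℝ → ℝ := fun t => ∫ θ in (0 : ℝ)..(2 * π), c θ * den t θ / num t θ with hG
  have Gc : Continuous G := by
    refine intervalIntegral.continuous_parametric_intervalIntegral_of_continuous' ?_ _ _
    exact Continuous.div ((hc.comp continuous_snd).mul denc) numc num0
  -- the values of G
  have hcn : ∀ t, |∫ θ in (0 : ℝ)..(2 * π), c θ / num t θ| ≤ Cc := by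
    intro t
    have h1 : ∀ θ ∈ Ioc (0 : ℝ) (2 * π), ‖c θ / num t θ‖ ≤ |c θ| := fun θ _ => by
      rw [Real.norm_eq_abs, abs_div, abs_of_pos (show 0 < num t θ by linarith [num1 t θ])]
      exact div_le_self (abs_nonneg _) (num1 t θ)
    have := intervalIntegral.norm_integral_le_of_norm_le (μ := volume)
      (by positivity : (0 : ℝ) ≤ 2 * π) (ae_of_all _ h1) (hc.abs.intervalIntegrable _ _)
    exact this
  have hGe : ∀ t, G t = (∫ θ in (0 : ℝ)..(2 * π), c θ / num t θ) +
      (max t 0 * (∫ θ in (0 : ℝ)..(2 * π), c θ * bb N t₁ θ / num t θ) +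
        max (-t) 0 * (∫ θ in (0 : ℝ)..(2 * π), c θ * bb N t₃ θ / num t θ)) := by
    intro t
    have i1 : IntervalIntegrable (fun θ => c θ / num t θ) volume 0 (2 * π) :=
      (hc.div (numc' t) (numne t)).intervalIntegrable _ _
    have i2 : IntervalIntegrable (fun θ => c θ * bb N t₁ θ / num t θ) volume 0 (2 * π) :=
      ((hc.mul g1).div (numc' t) (numne t)).intervalIntegrable _ _
    have i3 : IntervalIntegrable (fun θ => c θ * bb N t₃ θ / num t θ) volume 0 (2 * π) :=
      ((hc.mul g3).div (numc' t) (numne t)).intervalIntegrable _ _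
    rw [← intervalIntegral.integral_const_mul, ← intervalIntegral.integral_const_mul,
      ← intervalIntegral.integral_add (i2.const_mul _) (i3.const_mul _),
      ← intervalIntegral.integral_add i1 ((i2.const_mul _).add (i3.const_mul _))]
    simp only [hG]
    refine intervalIntegral.integral_congr fun θ _ => ?_
    simp only [hden]
    ring
  have hGT : 0 < G T := by
    rw [hGe, max_eq_left hT0, max_eq_right (by linarith : -T ≤ 0), zero_mul, add_zero]
    have h1 := (abs_le.1 (hcn T)).1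
    have h2 := (abs_le.1 (f3 (S₁ T) (S₂ T) (S₁0 T) (S₁S T) (S₂0 T) (S₂S T))).1
    have h3 : c t₁ / 2 ≤ ∫ θ in (0 : ℝ)..(2 * π), c θ * bb N t₁ θ / num T θ := by
      simp only [hnum]
      linarith
    have h4 := mul_le_mul_of_nonneg_left h3 hT0
    linarith
  have hGT' : G (-T) < 0 := by
    rw [hGe, neg_neg, max_eq_left hT0, max_eq_right (by linarith : -T ≤ 0), zero_mul, zero_add]
    have h1 := (abs_le.1 (hcn (-T))).2
    have h2 := (abs_le.1 (f4 (S₁ (-T)) (S₂ (-T)) (S₁0 _) (S₁S _) (S₂0 _) (S₂S _))).2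
    have h3 : (∫ θ in (0 : ℝ)..(2 * π), c θ * bb N t₃ θ / num (-T) θ) ≤ c t₃ / 2 := by
      simp only [hnum]
      linarith
    have h4 := mul_le_mul_of_nonneg_left h3 hT0
    linarith
  obtain ⟨s, hs, hGs⟩ := intermediate_value_Icc (by linarith : -T ≤ T) Gc.continuousOn
    ⟨hGT'.le, hGT.le⟩
  have hs1 : max s 0 ≤ T := max_le hs.2 hT0
  have hs2 : max (-s) 0 ≤ T := max_le (by linarith [hs.1]) hT0
  have a1 : m / 2 ≤ α₁ s := by
    have h2 := (abs_le.1 (f1 (max s 0) (max (-s) 0) (le_max_right _ _) hs1 (le_max_right _ _)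
      hs2)).1
    have h3 : m ≤ a t₄ := min_le_left _ _
    simp only [hα₁, hden]
    linarith
  have a2 : m / 2 ≤ α₂ s := by
    have h2 := (abs_le.1 (f2 (max s 0) (max (-s) 0) (le_max_right _ _) hs1 (le_max_right _ _)
      hs2)).2
    have h3 : m ≤ -a t₂ := min_le_right _ _
    simp only [hα₂, hden]
    linarith
  have e1 : S₁ s * α₁ s = max (-D s) 0 := by
    simp only [hS₁]
    rw [max_eq_left a1]
    exact div_mul_cancel₀ _ (by linarith)
  have e2 : S₂ s * α₂ s = max (D s) 0 := by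
    simp only [hS₂]
    rw [max_eq_left a2]
    exact div_mul_cancel₀ _ (by linarith)
  have hk := kap_pos N
  have hbk : ∀ u x θ : ℝ, u / kap N * ((1 + Real.cos (θ - x)) / 2) ^ N = u * bb N x θ := by
    intro u x θ
    rw [bb]
    ring
  refine ⟨N, max s 0 / kap N, S₂ s / kap N, max (-s) 0 / kap N, S₁ s / kap N,
    div_nonneg (le_max_right _ _) hk.le, div_nonneg (S₂0 s) hk.le,
    div_nonneg (le_max_right _ _) hk.le, div_nonneg (S₁0 s) hk.le, ?_⟩
  simp only [hbk]
  constructor
  · have i1 : IntervalIntegrable (fun θ => a θ / den s θ) volume 0 (2 * π) :=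
      (ha.div (denc' s) (denne s)).intervalIntegrable _ _
    have i2 : IntervalIntegrable (fun θ => a θ * bb N t₄ θ / den s θ) volume 0 (2 * π) :=
      ((ha.mul g4).div (denc' s) (denne s)).intervalIntegrable _ _
    have i3 : IntervalIntegrable (fun θ => a θ * bb N t₂ θ / den s θ) volume 0 (2 * π) :=
      ((ha.mul g2).div (denc' s) (denne s)).intervalIntegrable _ _
    have e3 : ∫ θ in (0 : ℝ)..(2 * π), a θ * ((1 + S₁ s * bb N t₄ θ + S₂ s * bb N t₂ θ) /
        (1 + max s 0 * bb N t₁ θ + max (-s) 0 * bb N t₃ θ)) =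
        D s + (S₁ s * α₁ s + S₂ s * -α₂ s) := by
      simp only [hα₂, neg_neg, hα₁, hD]
      rw [← intervalIntegral.integral_const_mul, ← intervalIntegral.integral_const_mul,
        ← intervalIntegral.integral_add (i2.const_mul _) (i3.const_mul _),
        ← intervalIntegral.integral_add i1 ((i2.const_mul _).add (i3.const_mul _))]
      refine intervalIntegral.integral_congr fun θ _ => ?_
      simp only [hden]
      ring
    rw [e3, e1, mul_neg, e2]
    rcases le_total (D s) 0 with h | h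
    · rw [max_eq_left (by linarith : 0 ≤ -D s), max_eq_right h]
      ring
    · rw [max_eq_right (by linarith : -D s ≤ 0), max_eq_left h]
      ring
  · refine Eq.trans (intervalIntegral.integral_congr fun θ _ => ?_) hGs
    simp only [hnum, hden]
    rw [div_div_eq_mul_div]

end Pool.Agent.Y155.LM
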